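import Pool.Agent.Helper7.ACP.Final

/-!
# The path clearing number of digraphs of bounded treewidth

For every fixed `k` the path clearing number of digraphs whose underlying graph is connected and
has treewidth at most `k` is computable in polynomial time by a deterministic (multi-stack) Turing
machine. This holds whether the directed path on which an agent clears its segment is a path
without repeated vertices (`walks = false`) or a walk (`walks = true`); for digraphs without
directed cycles both are the same.

Outline. A placement is valid if and only if every two vertices `u`, `v` are joined by a chain of
directed paths `q_1, ..., q_r` that start at different agents: `u` is on `q_1`, `v` is on `q_r` and
`q_i` meets `q_{i+1}`. In a shortest chain `q_i` and `q_j` are disjoint if `i` and `j` differ by at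
least two: so the paths with even index are disjoint, the paths with odd index are disjoint, and
at most two agents per vertex are needed. The final segments of the `q_i` that are used form a path
from `u` to `v`. This is described by labels from a finite set on the arcs, with local
conditions at the vertices in terms of the sums of the labels in a finite monoid (closed paths
in the labels do no harm: a closed path that meets the path from `u` to `v` would have to contain it).
For walks the argument is similar: every vertex is on the approaches of at most two agents.

The sets of sums of labels at `k + 1` boundary vertices give finitely many types of pieces of the
digraph, for each assignment of agents to the vertices of the piece. A table of all types and numbers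
of agents for the components left by removing `k + 1` vertices is computed in polynomial time.
-/

set_option autoImplicit false

namespace Pool.Agent.Results.MP_fbf529_lc.PolyTime

open Pool.Agent.Helper7.ACP

theorem result (walks : Bool) (k : ℕ) : ∃ f : Dig → ℕ,
    Nonempty (Turing.TM2ComputableInPolyTime Dig.enc Computability.encodeNat f) ∧
    ∀ D : Dig, D.InClass k → f D = acp walks D.A :=
  main walks k

end Pool.Agent.Results.MP_fbf529_lc.PolyTime
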